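import Pool.Agent.TH841.SH.Alg2

/-!
# Project QB: the classes of the points over a finite field

`y² = (x - a) (x - b) (x - c)` over a finite field of odd characteristic: every pair of square classes is
the class of a point (`#E(k) / 2 E(k) = #E(k)[2] = 4`).
-/

set_option autoImplicit false
set_option linter.unusedSectionVars false
set_option linter.unusedVariables false

namespace Pool.Agent.N763.QB

open WeierstrassCurve
open Pool.Agent.TH841.SH

section alg

variable {K : Type*} [Field K]

open Classical in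
/-- the class of a point at `a` -/
noncomputable def al (W : WeierstrassCurve K) (a b c : K) : W.toAffine.Point → K
  | 0 => 1
  | .some x _ _ => if x = a then (a - b) * (a - c) else x - a

variable {W : WeierstrassCurve K} {a b c : K}

lemma al_zero : al W a b c 0 = 1 := rfl

lemma al_eq {y : K} (h : W.toAffine.Nonsingular a y) :
    al W a b c (.some a y h) = (a - b) * (a - c) := if_pos rfl

lemma al_some {x y : K} (h : W.toAffine.Nonsingular x y) (hx : x ≠ a) :
    al W a b c (.some x y h) = x - a := if_neg hx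

lemma al_ne (hab : a ≠ b) (hac : a ≠ c) (P : W.toAffine.Point) : al W a b c P ≠ 0 := by
  rcases P with _ | ⟨x, y, h⟩
  · exact one_ne_zero
  · by_cases hx : x = a
    · subst hx
      rw [al_eq]
      exact mul_ne_zero (sub_ne_zero.2 hab) (sub_ne_zero.2 hac)
    · rw [al_some h hx]
      exact sub_ne_zero.2 hx

lemma sq_self (x : K) : IsSquare (x * x) := ⟨x, rfl⟩

variable [DecidableEq K]

lemma al_neg (P : W.toAffine.Point) : al W a b c (-P) = al W a b c P := by
  rcases P with _ | ⟨x, y, h⟩
  · rfl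
  · rfl

lemma al_dup (h : IsR W a b c) (h2 : (2 : K) ≠ 0) (P : W.toAffine.Point) :
    IsSquare (al W a b c (P + P)) := by
  rcases P with _ | ⟨u, v, hn⟩
  · exact ⟨1, by rw [mul_one]; rfl⟩
  · by_cases hv : v = 0
    · rw [(h.add_self h2 hn).2 hv, al_zero]
      exact ⟨1, (mul_one _).symm⟩
    · obtain ⟨X, Y, hn', e1, e2⟩ := h.dup h2 hn hv
      rw [e1]
      by_cases hX : X = a
      · subst hX
        rw [al_eq]
        rw [sub_self] at e2
        have e3 := (pow_eq_zero_iff two_ne_zero).1 e2.symm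
        rw [div_eq_zero_iff] at e3
        rcases e3 with e3 | e3
        · exact ⟨u - X, by linear_combination -e3⟩
        · exact absurd e3 (mul_ne_zero h2 hv)
      · rw [al_some hn' hX, e2]
        exact ⟨_, sq _⟩

lemma al_trans (h : IsR W a b c) (h2 : (2 : K) ≠ 0) (hab : a ≠ b) (hac : a ≠ c)
    (ha : W.toAffine.Nonsingular a 0) (Q : W.toAffine.Point) :
    IsSquare (al W a b c (.some a 0 ha) * al W a b c Q * al W a b c (.some a 0 ha + Q)) := by
  rcases Q with _ | ⟨u, v, hn⟩
  · show IsSquare (al W a b c (.some a 0 ha) * al W a b c 0 * al W a b c (.some a 0 ha + 0))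
    rw [add_zero, al_zero, mul_one]
    exact sq_self _
  · by_cases hv : v = 0
    · subst hv
      have hT := (h.add_self h2 hn).2 rfl
      rcases h.tors h2 hT with h0 | ⟨ha', e⟩ | ⟨hb, e⟩ | ⟨hc, e⟩
      · exact absurd h0 (Affine.Point.some_ne_zero _)
      · rw [e, (h.add_self h2 ha).2 rfl, al_zero, mul_one]
        exact sq_self _
      · rw [e]
        obtain ⟨hc, e'⟩ := h.add_two hab ha hb
        rw [e', al_eq, al_some hb hab.symm, al_some hc hac.symm]
        exact ⟨(a - b) * (a - c), by ring⟩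
      · rw [e]
        have h' : IsR W a c b := ⟨h.h1, by rw [h.h2]; ring, h.h3, by rw [h.h4]; ring,
          by rw [h.h6]; ring⟩
        obtain ⟨hb, e'⟩ := h'.add_two hac ha hc
        rw [e', al_eq, al_some hb hab.symm, al_some hc hac.symm]
        exact ⟨(a - b) * (a - c), by ring⟩
    · obtain ⟨X, Y, hn', e1, q1, q2, q3, hX, hY⟩ := h.trans hn hv ha
      rw [add_comm, e1]
      have hXa : X ≠ a := by
        rw [hX]
        intro h0
        have : (a - b) * (a - c) / (u - a) = 0 := by linear_combination h0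
        exact div_ne_zero (mul_ne_zero (sub_ne_zero.2 hab) (sub_ne_zero.2 hac)) q1 this
      rw [al_eq, al_some hn (sub_ne_zero.1 q1), al_some hn' hXa, hX]
      refine ⟨(a - b) * (a - c), ?_⟩
      field_simp
      ring

/-- **the class is multiplicative** -/
theorem al_mul (h : IsR W a b c) (h2 : (2 : K) ≠ 0) (hab : a ≠ b) (hac : a ≠ c)
    (P Q : W.toAffine.Point) :
    IsSquare (al W a b c P * al W a b c Q * al W a b c (P + Q)) := by
  rcases P with _ | ⟨x₁, y₁, hn₁⟩
  · show IsSquare (al W a b c 0 * al W a b c Q * al W a b c (0 + Q))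
    rw [zero_add, al_zero, one_mul]
    exact sq_self _
  rcases Q with _ | ⟨x₂, y₂, hn₂⟩
  · show IsSquare (al W a b c (.some x₁ y₁ hn₁) * al W a b c 0 * al W a b c (.some x₁ y₁ hn₁ + 0))
    rw [add_zero, al_zero, mul_one]
    exact sq_self _
  have he₁ := (h.eqn _ _).1 hn₁.1
  have he₂ := (h.eqn _ _).1 hn₂.1
  by_cases h1 : x₁ = a
  · subst h1
    rw [sub_self, zero_mul, zero_mul] at he₁
    have hy : y₁ = 0 := (pow_eq_zero_iff two_ne_zero).1 he₁
    subst hy
    exact al_trans h h2 hab hac hn₁ _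
  by_cases h3 : x₂ = a
  · subst h3
    rw [sub_self, zero_mul, zero_mul] at he₂
    have hy : y₂ = 0 := (pow_eq_zero_iff two_ne_zero).1 he₂
    subst hy
    rw [add_comm, mul_comm (al W x₂ b c (.some x₁ y₁ hn₁))]
    exact al_trans h h2 hab hac hn₂ _
  by_cases h4 : x₁ = x₂
  · subst h4
    by_cases h5 : y₁ = y₂
    · subst h5
      exact (sq_self _).mul (al_dup h h2 _)
    · have h6 : y₁ = W.toAffine.negY x₁ y₂ := by
        rw [h.negY]
        have h7 : (y₁ - y₂) * (y₁ + y₂) = 0 := by linear_combination he₁ - he₂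
        rcases mul_eq_zero.1 h7 with h8 | h8
        · exact absurd (sub_eq_zero.1 h8) h5
        · linear_combination h8
      have e1 : (Affine.Point.some x₁ y₁ hn₁ : W.toAffine.Point) + .some x₁ y₂ hn₂ = 0 :=
        Affine.Point.add_of_Y_eq rfl h6
      rw [e1, al_zero, mul_one, al_some hn₁ h1, al_some hn₂ h1]
      exact sq_self _
  · have e0 := Affine.Point.add_of_X_ne (W := W.toAffine) (h₁ := hn₁) (h₂ := hn₂) h4
    have e5 := Affine.nonsingular_add hn₁ hn₂ (fun hxy => h4 hxy.left)
    set X := W.toAffine.addX x₁ x₂ (W.toAffine.slope x₁ x₂ y₁ y₂) with hXd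
    set Y := W.toAffine.addY x₁ x₂ y₁ (W.toAffine.slope x₁ x₂ y₁ y₂) with hYd
    by_cases hX : X = a
    · have hY0 : Y = 0 := by
        have := (h.eqn _ _).1 e5.1
        rw [hX, sub_self, zero_mul, zero_mul] at this
        exact (pow_eq_zero_iff two_ne_zero).1 this
      have ha : W.toAffine.Nonsingular a 0 := by
        rw [hX, hY0] at e5
        exact e5
      have e6 : (Affine.Point.some x₁ y₁ hn₁ : W.toAffine.Point) + .some x₂ y₂ hn₂ =
          .some a 0 ha := by
        rw [e0]
        congr 1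
      have e7 := al_trans h h2 hab hac ha (-(.some x₂ y₂ hn₂ : W.toAffine.Point))
      rw [al_neg] at e7
      have e8 : (.some a 0 ha : W.toAffine.Point) + -(.some x₂ y₂ hn₂) = .some x₁ y₁ hn₁ := by
        rw [← e6]
        abel
      rw [e8] at e7
      rw [e6]
      have e9 : al W a b c (.some x₁ y₁ hn₁) * al W a b c (.some x₂ y₂ hn₂) *
        al W a b c (.some a 0 ha) = al W a b c (.some a 0 ha) * al W a b c (.some x₂ y₂ hn₂) *
        al W a b c (.some x₁ y₁ hn₁) := by ring
      rw [e9]
      exact e7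
    · have e6 : (Affine.Point.some x₁ y₁ hn₁ : W.toAffine.Point) + .some x₂ y₂ hn₂ =
          .some X Y e5 := e0
      rw [e6, al_some hn₁ h1, al_some hn₂ h3, al_some e5 hX]
      set l := W.toAffine.slope x₁ x₂ y₁ y₂ with hl
      have hl1 : l * (x₁ - x₂) = y₁ - y₂ := by
        rw [hl, Affine.slope_of_X_ne h4, div_mul_cancel₀ _ (sub_ne_zero.2 h4)]
      have hX' : X = l ^ 2 + (a + b + c) - x₁ - x₂ := by
        rw [hXd]
        show l ^ 2 + W.a₁ * l - W.a₂ - x₁ - x₂ = _
        rw [h.h1, h.h2]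
        ring
      have hl2 : l * (y₁ + y₂) * (x₁ - x₂) = (x₁ - a) * (x₁ - b) * (x₁ - c) -
          (x₂ - a) * (x₂ - b) * (x₂ - c) := by
        rw [← he₁, ← he₂]
        linear_combination (y₁ + y₂) * hl1
      refine ⟨y₁ + l * (a - x₁), ?_⟩
      apply mul_right_cancel₀ (sub_ne_zero.2 h4)
      rw [hX']
      have e10 : (x₁ - a) * (x₂ - a) * (l ^ 2 + (a + b + c) - x₁ - x₂ - a) * (x₁ - x₂) -
        (y₁ + l * (a - x₁)) * (y₁ + l * (a - x₁)) * (x₁ - x₂) =
        -((x₁ - a) * (x₁ - x₂)) * l * (l * (x₁ - x₂) - (y₁ - y₂)) +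
        (x₁ - a) * (l * (y₁ + y₂) * (x₁ - x₂)) +
        (x₁ - a) * (x₂ - a) * (b + c - x₁ - x₂) * (x₁ - x₂) - y₁ ^ 2 * (x₁ - x₂) := by ring
      apply sub_eq_zero.1
      rw [e10, hl1, hl2, he₁]
      ring

/-- halving, in terms of the classes -/
theorem al_halve (h : IsR W a b c) (h2 : (2 : K) ≠ 0) (hab : a ≠ b) (hac : a ≠ c) (hbc : b ≠ c)
    (P : W.toAffine.Point) (h3 : IsSquare (al W a b c P)) (h4 : IsSquare (al W b a c P)) :
    ∃ Q : W.toAffine.Point, P = Q + Q := by
  rcases P with _ | ⟨x, y, hn⟩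
  · exact ⟨0, (add_zero _).symm⟩
  have he := (h.eqn _ _).1 hn.1
  -- it is enough that the three differences are squares
  have key : ∀ s t w : K, x - a = s ^ 2 → x - b = t ^ 2 → x - c = w ^ 2 →
      ∃ Q : W.toAffine.Point, (Affine.Point.some x y hn : W.toAffine.Point) = Q + Q := by
    intro s t w hs ht hw
    have h5 : y ^ 2 = (s * t * w) ^ 2 := by
      rw [he, hs, ht, hw]
      ring
    rcases sq_eq_sq_iff_eq_or_eq_neg.1 h5 with h6 | h6
    · exact h.halve h2 hab hac hbc hn hs ht hw h6
    · refine h.halve h2 hab hac hbc (s := -s) hn ?_ ht hw (by rw [h6]; ring)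
      rw [hs]
      ring
  by_cases hxa : x = a
  · subst hxa
    rw [al_eq] at h3
    rw [al_some hn hab] at h4
    obtain ⟨t, ht⟩ := h4
    obtain ⟨s, hs⟩ := h3
    have ht0 : t ≠ 0 := by
      rintro rfl
      rw [mul_zero] at ht
      exact hab (sub_eq_zero.1 ht)
    refine key 0 t (s / t) (by ring) (by rw [ht]; ring) ?_
    rw [div_pow, eq_div_iff (pow_ne_zero 2 ht0)]
    linear_combination hs - (x - c) * ht
  by_cases hxb : x = b
  · subst hxb
    rw [al_eq] at h4
    rw [al_some hn hab.symm] at h3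
    obtain ⟨t, ht⟩ := h3
    obtain ⟨s, hs⟩ := h4
    have ht0 : t ≠ 0 := by
      rintro rfl
      rw [mul_zero] at ht
      exact hab.symm (sub_eq_zero.1 ht)
    refine key t 0 (s / t) (by rw [ht]; ring) (by ring) ?_
    rw [div_pow, eq_div_iff (pow_ne_zero 2 ht0)]
    linear_combination hs - (x - c) * ht
  · rw [al_some hn hxa] at h3
    rw [al_some hn hxb] at h4
    obtain ⟨s, hs⟩ := h3
    obtain ⟨t, ht⟩ := h4
    have hs0 : s ≠ 0 := by
      rintro rfl
      rw [mul_zero] at hs
      exact hxa (sub_eq_zero.1 hs)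
    have ht0 : t ≠ 0 := by
      rintro rfl
      rw [mul_zero] at ht
      exact hxb (sub_eq_zero.1 ht)
    refine key s t (y / (s * t)) (by rw [hs]; ring) (by rw [ht]; ring) ?_
    rw [div_pow, eq_div_iff (pow_ne_zero 2 (mul_ne_zero hs0 ht0)), he, hs, ht]
    ring

end alg

section fin

variable {k : Type} [Field k] [Finite k] [DecidableEq k]

/-- the points of order two -/
lemma card_two (W : WeierstrassCurve k) {a b c : k} (h : IsR W a b c) (h2 : (2 : k) ≠ 0)
    (hab : a ≠ b) (hac : a ≠ c) (hbc : b ≠ c) :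
    Nat.card {P : W.toAffine.Point // P + P = 0} = 4 := by
  have ha : W.toAffine.Nonsingular a 0 := h.nons h2 hab hac hbc (by ring)
  have hb : W.toAffine.Nonsingular b 0 := h.nons h2 hab hac hbc (by ring)
  have hc : W.toAffine.Nonsingular c 0 := h.nons h2 hab hac hbc (by ring)
  have h1 : {P : W.toAffine.Point | P + P = 0} =
      (({0, .some a 0 ha, .some b 0 hb, .some c 0 hc} : Finset W.toAffine.Point) : Set _) := by
    ext P
    simp only [Set.mem_ofPred_eq, Finset.coe_insert, Finset.coe_singleton, Set.mem_insert_iff,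
      Set.mem_singleton_iff]
    constructor
    · intro hP
      rcases h.tors h2 hP with e | ⟨_, e⟩ | ⟨_, e⟩ | ⟨_, e⟩
      · exact Or.inl e
      · exact Or.inr (Or.inl e)
      · exact Or.inr (Or.inr (Or.inl e))
      · exact Or.inr (Or.inr (Or.inr e))
    · rintro (rfl | rfl | rfl | rfl)
      · exact add_zero _
      · exact (h.add_self h2 _).2 rfl
      · exact (h.add_self h2 _).2 rfl
      · exact (h.add_self h2 _).2 rfl
  have h3 : Nat.card {P : W.toAffine.Point | P + P = 0} = 4 := by
    rw [h1, Nat.card_coe_set_eq, Set.ncard_coe_finset]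
    rw [Finset.card_insert_of_notMem, Finset.card_insert_of_notMem, Finset.card_insert_of_notMem,
      Finset.card_singleton]
    · rw [Finset.mem_singleton, Affine.Point.some.injEq]
      exact fun h5 => hbc h5.1
    · rw [Finset.mem_insert, Finset.mem_singleton, Affine.Point.some.injEq,
        Affine.Point.some.injEq]
      rintro (h5 | h5)
      · exact hab h5.1
      · exact hac h5.1
    · simp only [Finset.mem_insert, Finset.mem_singleton]
      rintro (h5 | h5 | h5)
      · exact Affine.Point.some_ne_zero _ h5.symm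
      · exact Affine.Point.some_ne_zero _ h5.symm
      · exact Affine.Point.some_ne_zero _ h5.symm
  exact h3

/-- the class of a nonzero element of a finite field -/
noncomputable def ch : kˣ →* ℤˣ :=
  haveI := Fintype.ofFinite k
  (quadraticChar k).toUnitHom

lemma ch_one {x : kˣ} (h2 : (2 : k) ≠ 0) : ch x = 1 ↔ IsSquare (x : k) := by
  letI := Fintype.ofFinite k
  rw [← Units.val_inj]
  have e : ((ch x : ℤˣ) : ℤ) = quadraticChar k (x : k) := by
    unfold ch
    rw [MulChar.coe_toUnitHom]
  rw [e, Units.val_one]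
  exact quadraticChar_one_iff_isSquare x.ne_zero

lemma ch_eq {x y : kˣ} (h2 : (2 : k) ≠ 0) : ch x = ch y ↔ IsSquare ((x : k) * y) := by
  rw [← Units.val_mul, ← ch_one h2, map_mul]
  constructor
  · intro h
    rw [h]
    exact Int.units_mul_self _
  · intro h
    calc ch x = ch x * (ch y * ch y) := by rw [Int.units_mul_self, mul_one]
      _ = (ch x * ch y) * ch y := by rw [mul_assoc]
      _ = ch y := by rw [h, one_mul]

/-- **all the pairs of classes are classes of points** -/
theorem all_classes (W : WeierstrassCurve k) {a b c : k} (h : IsR W a b c) (h2 : (2 : k) ≠ 0)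
    (hab : a ≠ b) (hac : a ≠ c) (hbc : b ≠ c) {u v : k} (hu : u ≠ 0) (hv : v ≠ 0) :
    ∃ P : W.toAffine.Point, IsSquare (al W a b c P * u) ∧ IsSquare (al W b a c P * v) := by
  have hfin : Finite W.toAffine.Point := by
    let g : W.toAffine.Point → Option (k × k) := fun P => match P with
      | 0 => none
      | .some x y _ => some (x, y)
    apply Finite.of_injective g
    intro P Q hPQ
    rcases P with _ | ⟨x, y, h5⟩ <;> rcases Q with _ | ⟨x', y', h6⟩
    · rfl
    · exact absurd hPQ (by simp [g])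
    · exact absurd hPQ (by simp [g])
    · have h7 : (x, y) = (x', y') := Option.some.inj hPQ
      rw [Prod.mk.injEq] at h7
      obtain ⟨rfl, rfl⟩ := h7
      rfl
  -- the class homomorphism
  let f : W.toAffine.Point → ℤˣ × ℤˣ := fun P =>
    (ch (Units.mk0 _ (al_ne (W := W) hab hac P)), ch (Units.mk0 _ (al_ne (W := W) hab.symm hbc P)))
  have hadd : ∀ P Q, f (P + Q) = f P * f Q := by
    intro P Q
    have h3 := al_mul h h2 hab hac P Q
    have h4 := al_mul h.swap h2 hab.symm hbc P Q
    have e1 : ch (Units.mk0 _ (al_ne (W := W) hab hac (P + Q))) =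
        ch (Units.mk0 _ (al_ne (W := W) hab hac P) * Units.mk0 _ (al_ne (W := W) hab hac Q)) := by
      rw [ch_eq h2]
      rw [Units.val_mul, Units.val_mk0, Units.val_mk0, Units.val_mk0, mul_comm]
      exact h3
    have e2 : ch (Units.mk0 _ (al_ne (W := W) hab.symm hbc (P + Q))) =
        ch (Units.mk0 _ (al_ne (W := W) hab.symm hbc P) *
          Units.mk0 _ (al_ne (W := W) hab.symm hbc Q)) := by
      rw [ch_eq h2]
      rw [Units.val_mul, Units.val_mk0, Units.val_mk0, Units.val_mk0, mul_comm]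
      exact h4
    show (ch _, ch _) = (ch _ * ch _, ch _ * ch _)
    rw [e1, e2, map_mul, map_mul]
  let φ : W.toAffine.Point →+ Additive (ℤˣ × ℤˣ) := AddMonoidHom.mk' (fun P => Additive.ofMul (f P))
    (fun P Q => by rw [hadd]; rfl)
  let D : W.toAffine.Point →+ W.toAffine.Point := AddMonoidHom.mk' (fun P => P + P)
    (fun P Q => by abel)
  have hk : φ.ker ≤ D.range := by
    intro P hP
    rw [AddMonoidHom.mem_ker] at hP
    have h3 : f P = 1 := hP
    have h4 : ch (Units.mk0 _ (al_ne (W := W) hab hac P)) = 1 := congrArg Prod.fst h3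
    have h5 : ch (Units.mk0 _ (al_ne (W := W) hab.symm hbc P)) = 1 := congrArg Prod.snd h3
    rw [ch_one h2] at h4 h5
    obtain ⟨Q, hQ⟩ := al_halve h h2 hab hac hbc P h4 h5
    exact ⟨Q, hQ.symm⟩
  have hDk : Nat.card D.ker = 4 := by
    have := card_two W h h2 hab hac hbc
    rw [← this]
    apply Nat.card_congr
    exact Equiv.subtypeEquivRight fun P => by
      rw [AddMonoidHom.mem_ker]
      rfl
  have hD4 : D.range.index = 4 := by
    have h3 := AddSubgroup.card_mul_index D.range
    have h4 := AddSubgroup.card_mul_index D.ker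
    rw [AddSubgroup.index_ker] at h4
    have h5 : 0 < Nat.card D.range := Nat.card_pos
    rw [← h4, hDk, mul_comm] at h3
    exact Nat.eq_of_mul_eq_mul_right h5 h3
  have h5 : (4 : ℕ) ∣ Nat.card φ.range := by
    rw [← AddSubgroup.index_ker, ← hD4]
    exact AddSubgroup.index_dvd_of_le hk
  have h6 : Nat.card (Additive (ℤˣ × ℤˣ)) = 4 := by
    rw [Nat.card_eq_fintype_card]
    rfl
  have h7 : Nat.card φ.range = Nat.card (Additive (ℤˣ × ℤˣ)) := by
    apply le_antisymm
    · exact Nat.card_le_card_of_injective _ Subtype.val_injective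
    · rw [h6]
      exact Nat.le_of_dvd Nat.card_pos h5
  have h8 : φ.range = ⊤ := AddSubgroup.eq_top_of_card_eq _ h7
  have h9 : Additive.ofMul (ch (Units.mk0 u hu), ch (Units.mk0 v hv)) ∈ φ.range := by
    rw [h8]
    exact AddSubgroup.mem_top _
  obtain ⟨P, hP⟩ := h9
  have h10 : f P = (ch (Units.mk0 u hu), ch (Units.mk0 v hv)) := hP
  refine ⟨P, ?_, ?_⟩
  · have h11 : ch (Units.mk0 _ (al_ne (W := W) hab hac P)) = ch (Units.mk0 u hu) :=
      congrArg Prod.fst h10
    rw [ch_eq h2] at h11
    exact h11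
  · have h11 : ch (Units.mk0 _ (al_ne (W := W) hab.symm hbc P)) = ch (Units.mk0 v hv) :=
      congrArg Prod.snd h10
    rw [ch_eq h2] at h11
    exact h11

/-- the same with the points of order two written out -/
theorem all_cases {a b c : k} (h2 : (2 : k) ≠ 0)
    (hab : a ≠ b) (hac : a ≠ c) (hbc : b ≠ c) {u v : k} (hu : u ≠ 0) (hv : v ≠ 0) :
    (∃ x y : k, y ≠ 0 ∧ y ^ 2 = (x - a) * (x - b) * (x - c) ∧ IsSquare ((x - a) * u) ∧
      IsSquare ((x - b) * v)) ∨
    (IsSquare u ∧ IsSquare v) ∨
    (IsSquare ((a - b) * (a - c) * u) ∧ IsSquare ((a - b) * v)) ∨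
    (IsSquare ((b - a) * u) ∧ IsSquare ((b - a) * (b - c) * v)) ∨
    (IsSquare ((c - a) * u) ∧ IsSquare ((c - b) * v)) := by
  let W : WeierstrassCurve k := ⟨0, -(a + b + c), 0, a * b + a * c + b * c, -(a * b * c)⟩
  have h : IsR W a b c := ⟨rfl, rfl, rfl, rfl, rfl⟩
  obtain ⟨P, h3, h4⟩ := all_classes W h h2 hab hac hbc hu hv
  rcases P with _ | ⟨x, y, hn⟩
  · right; left
    constructor
    · have e : al W a b c 0 = 1 := al_zero
      have h3' : IsSquare (al W a b c 0 * u) := h3
      rwa [e, one_mul] at h3'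
    · have e : al W b a c 0 = 1 := al_zero
      have h4' : IsSquare (al W b a c 0 * v) := h4
      rwa [e, one_mul] at h4'
  have he := (h.eqn _ _).1 hn.1
  by_cases hxa : x = a
  · subst hxa
    rw [al_eq] at h3
    rw [al_some hn hab] at h4
    exact Or.inr (Or.inr (Or.inl ⟨h3, h4⟩))
  by_cases hxb : x = b
  · subst hxb
    rw [al_eq] at h4
    rw [al_some hn hab.symm] at h3
    exact Or.inr (Or.inr (Or.inr (Or.inl ⟨h3, h4⟩)))
  rw [al_some hn hxa] at h3
  rw [al_some hn hxb] at h4
  by_cases hxc : x = c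
  · subst hxc
    exact Or.inr (Or.inr (Or.inr (Or.inr ⟨h3, h4⟩)))
  left
  refine ⟨x, y, ?_, he, h3, h4⟩
  intro hy
  rw [hy, zero_pow two_ne_zero] at he
  exact mul_ne_zero (mul_ne_zero (sub_ne_zero.2 hxa) (sub_ne_zero.2 hxb)) (sub_ne_zero.2 hxc) he.symm

end fin

end Pool.Agent.N763.QB
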