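import Pool.Agent.N763.QB.Ff
import Pool.Agent.TH115.SD.Hensel

/-!
# Project QB: local points at places of good reduction

For a place `w` of odd residue characteristic and `a`, `b`, `c` distinct modulo `w`, all the pairs of units are
classes of points of `y² = (x - a) (x - b) (x - c)` over the completion.
-/

set_option autoImplicit false
set_option linter.unusedSectionVars false
set_option linter.unusedVariables false

namespace Pool.Agent.N763.QB

open NumberField IsDedekindDomain WithZero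

section

variable {K : Type} [Field K] [NumberField K] (w : HeightOneSpectrum (𝓞 K))

/-- the embedding of the integers in the completion -/
noncomputable def io : 𝓞 K →+* w.adicCompletion K :=
  (algebraMap K (w.adicCompletion K)).comp (algebraMap (𝓞 K) K)

/-- the valuation of the completion -/
noncomputable abbrev vl : Valuation (w.adicCompletion K) ℤᵐ⁰ := Valued.v

lemma vl_io (z : 𝓞 K) : vl w (io w z) = w.valuation K (algebraMap (𝓞 K) K z) := by
  show Valued.v (algebraMap K (w.adicCompletion K) (algebraMap (𝓞 K) K z)) = _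
  rw [HeightOneSpectrum.algebraMap_adicCompletion]
  exact HeightOneSpectrum.valuedAdicCompletion_eq_valuation' w _

lemma vl_lt {z : 𝓞 K} (hz : z ∈ w.asIdeal) : vl w (io w z) < 1 := by
  rw [vl_io]
  exact (w.valuation_lt_one_iff_mem (K := K) _).2 hz

lemma vl_one {z : 𝓞 K} (hz : z ∉ w.asIdeal) : vl w (io w z) = 1 := by
  rw [vl_io]
  apply le_antisymm (w.valuation_le_one _)
  by_contra h
  exact hz ((w.valuation_lt_one_iff_mem (K := K) _).1 (not_le.1 h))

lemma vl_le (z : 𝓞 K) : vl w (io w z) ≤ 1 := by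
  rw [vl_io]
  exact w.valuation_le_one _

lemma io_ne {z : 𝓞 K} (hz : z ≠ 0) : io w z ≠ 0 := by
  intro h
  apply hz
  have h1 : Function.Injective (io w) :=
    (RingHom.injective (algebraMap K (w.adicCompletion K))).comp
      (FaithfulSMul.algebraMap_injective (𝓞 K) K)
  exact h1 (by rw [h, map_zero])

variable {w}

/-- principal units are squares -/
lemma pu (h2 : (2 : 𝓞 K) ∉ w.asIdeal) {x : w.adicCompletion K} (hx : vl w (x - 1) < 1) :
    IsSquare x := by
  have h3 := vl_one w h2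
  rw [map_ofNat] at h3
  obtain ⟨z, hz, -⟩ := Pool.Agent.TH115.GD.sqrt_one_unit (L := w.adicCompletion K) h3 x hx
  exact ⟨z, by rw [← hz]; ring⟩

/-- the units which are squares modulo `w` are squares -/
lemma sqL (h2 : (2 : 𝓞 K) ∉ w.asIdeal) {z y : 𝓞 K} (hz : z ∉ w.asIdeal)
    (hy : z - y * y ∈ w.asIdeal) : IsSquare (io w z) := by
  have hy' : y ∉ w.asIdeal := by
    intro h
    apply hz
    have := w.asIdeal.add_mem hy (w.asIdeal.mul_mem_left y h)
    rwa [sub_add_cancel] at this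
  have h1 := vl_one w hy'
  have hy0 : io w y ≠ 0 := by
    intro h
    rw [h, map_zero] at h1
    exact zero_ne_one h1
  have h3 := vl_lt w hy
  rw [map_sub, map_mul] at h3
  obtain ⟨s, hs⟩ := pu h2 (x := io w z / (io w y * io w y)) (by
    have e : io w z / (io w y * io w y) - 1 = (io w z - io w y * io w y) / (io w y * io w y) := by
      field_simp
    rw [e, map_div₀, map_mul, h1, mul_one, div_one]
    exact h3)
  rw [div_eq_iff (mul_ne_zero hy0 hy0)] at hs
  exact ⟨s * io w y, by rw [hs]; ring⟩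

/-- the residue field -/
lemma exists_res (w : HeightOneSpectrum (𝓞 K)) : ∃ (k : Type) (_ : Field k) (_ : Finite k)
    (π : 𝓞 K →+* k), Function.Surjective π ∧ ∀ z, π z = 0 ↔ z ∈ w.asIdeal := by
  have hm : w.asIdeal.IsMaximal := w.isMaximal
  let _ := Ideal.Quotient.field w.asIdeal
  have hf : Finite (𝓞 K ⧸ w.asIdeal) := Ideal.finiteQuotientOfFreeOfNeBot w.asIdeal w.ne_bot
  exact ⟨𝓞 K ⧸ w.asIdeal, inferInstance, hf, Ideal.Quotient.mk w.asIdeal,
    Ideal.Quotient.mk_surjective, fun z => Ideal.Quotient.eq_zero_iff_mem⟩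

lemma isq_mul {F : Type*} [Field F] {x y : F} (hx : IsSquare x) (hy : IsSquare y) :
    IsSquare (x * y) := hx.mul hy

/-- **all the pairs of units are classes of points** -/
theorem all_units (h2 : (2 : 𝓞 K) ∉ w.asIdeal) {a b c u v : 𝓞 K} (hab : a - b ∉ w.asIdeal)
    (hac : a - c ∉ w.asIdeal) (hbc : b - c ∉ w.asIdeal) (hu : u ∉ w.asIdeal)
    (hv : v ∉ w.asIdeal) :
    ∃ x y : w.adicCompletion K, y ≠ 0 ∧
      y ^ 2 = (x - io w a) * (x - io w b) * (x - io w c) ∧
      IsSquare ((x - io w a) * io w u) ∧ IsSquare ((x - io w b) * io w v) := by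
  obtain ⟨k, _, _, π, hs, hk⟩ := exists_res w
  classical
  have hne : ∀ {z : 𝓞 K}, z ∉ w.asIdeal → π z ≠ 0 := fun hz h => hz ((hk _).1 h)
  -- squares modulo `w`
  have hsq : ∀ {z : 𝓞 K}, z ∉ w.asIdeal → IsSquare (π z) → IsSquare (io w z) := by
    intro z hz hz2
    obtain ⟨y, hy⟩ := hz2
    obtain ⟨Y, rfl⟩ := hs y
    apply sqL h2 hz (y := Y)
    rw [← hk, map_sub, map_mul, hy, sub_self]
  have hmul : ∀ {z z' : 𝓞 K}, z ∉ w.asIdeal → z' ∉ w.asIdeal → z * z' ∉ w.asIdeal := by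
    intro z z' hz hz' h
    rcases w.isPrime.mem_or_mem h with h | h
    · exact hz h
    · exact hz' h
  have hneg : ∀ {z z' : 𝓞 K}, z - z' ∉ w.asIdeal → z' - z ∉ w.asIdeal := by
    intro z z' hz h
    apply hz
    have := w.asIdeal.neg_mem h
    rwa [neg_sub] at this
  -- a small element
  obtain ⟨t, ht, ht0⟩ := w.asIdeal.ne_bot_iff.1 w.ne_bot
  have hT0 := io_ne w ht0
  set T := io w t with hT
  have hT1 : vl w T < 1 := vl_lt w ht
  have hT2 : vl w (T ^ 2) < 1 := by
    rw [map_pow]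
    exact pow_lt_one₀ zero_le hT1 two_ne_zero
  have small : ∀ z : 𝓞 K, IsSquare (1 + io w z * T ^ 2) := by
    intro z
    apply pu h2
    rw [add_sub_cancel_left, map_mul]
    calc vl w (io w z) * vl w (T ^ 2) ≤ 1 * vl w (T ^ 2) := mul_le_mul_left (vl_le w z) _
      _ = vl w (T ^ 2) := one_mul _
      _ < 1 := hT2
  have nz : ∀ z : 𝓞 K, 1 + io w z * T ^ 2 ≠ 0 := by
    intro z h0
    have h1 : vl w (io w z * T ^ 2) < 1 := by
      rw [map_mul]
      calc vl w (io w z) * vl w (T ^ 2) ≤ 1 * vl w (T ^ 2) := mul_le_mul_left (vl_le w z) _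
        _ = vl w (T ^ 2) := one_mul _
        _ < 1 := hT2
    have h3 : io w z * T ^ 2 = -1 := by linear_combination h0
    rw [h3, Valuation.map_neg, map_one] at h1
    exact lt_irrefl _ h1
  have iov : ∀ {z : 𝓞 K}, z ∉ w.asIdeal → io w z ≠ 0 := by
    intro z hz h0
    have := vl_one w hz
    rw [h0, map_zero] at this
    exact zero_ne_one this
  have hπ : ∀ {z z' : 𝓞 K}, z - z' ∉ w.asIdeal → π z ≠ π z' := by
    intro z z' hz h
    apply hz
    rw [← hk, map_sub, h, sub_self]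
  have h2k : (2 : k) ≠ 0 := by
    have := hne h2
    rwa [map_ofNat] at this
  rcases all_cases (a := π a) (b := π b) (c := π c) h2k (hπ hab) (hπ hac) (hπ hbc) (hne hu)
    (hne hv) with
    ⟨x, y, hy, he, q1, q2⟩ | ⟨q1, q2⟩ | ⟨q1, q2⟩ | ⟨q1, q2⟩ | ⟨q1, q2⟩
  · obtain ⟨X, rfl⟩ := hs x
    have hp : (π X - π a) * (π X - π b) * (π X - π c) ≠ 0 := by
      rw [← he]
      exact pow_ne_zero 2 hy
    have hxa : X - a ∉ w.asIdeal := fun h => hp (by
      rw [← map_sub, (hk _).2 h, zero_mul, zero_mul])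
    have hxb : X - b ∉ w.asIdeal := fun h => hp (by
      rw [← map_sub π X b, (hk _).2 h, mul_zero, zero_mul])
    have hxc : X - c ∉ w.asIdeal := fun h => hp (by
      rw [← map_sub π X c, (hk _).2 h, mul_zero])
    have h3 := hsq (hmul (hmul hxa hxb) hxc) (by
      rw [map_mul, map_mul, map_sub, map_sub, map_sub, ← he]
      exact ⟨y, sq y⟩)
    obtain ⟨Y, hY⟩ := h3
    refine ⟨io w X, Y, ?_, ?_, ?_, ?_⟩
    · rintro rfl
      rw [mul_zero] at hY
      exact iov (hmul (hmul hxa hxb) hxc) hY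
    · rw [sq, ← hY, map_mul, map_mul, map_sub, map_sub, map_sub]
    · rw [← map_sub, ← map_mul]
      exact hsq (hmul hxa hu) (by rwa [map_mul, map_sub])
    · rw [← map_sub, ← map_mul]
      exact hsq (hmul hxb hv) (by rwa [map_mul, map_sub])
  · obtain ⟨s₁, hs₁⟩ := small (a - b)
    obtain ⟨s₂, hs₂⟩ := small (a - c)
    have e1 : s₁ ≠ 0 := fun h => nz (a - b) (by rw [hs₁, h, mul_zero])
    have e2 : s₂ ≠ 0 := fun h => nz (a - c) (by rw [hs₂, h, mul_zero])
    rw [map_sub] at hs₁ hs₂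
    refine ⟨io w a + 1 / T ^ 2, s₁ * s₂ / T ^ 3, ?_, ?_, ?_, ?_⟩
    · exact div_ne_zero (mul_ne_zero e1 e2) (pow_ne_zero 3 hT0)
    · have e3 : io w a + 1 / T ^ 2 - io w b = s₁ * s₁ / T ^ 2 := by
        rw [← hs₁]
        field_simp
        ring
      have e4 : io w a + 1 / T ^ 2 - io w c = s₂ * s₂ / T ^ 2 := by
        rw [← hs₂]
        field_simp
        ring
      rw [e3, e4]
      field_simp
      ring
    · refine isq_mul ⟨1 / T, ?_⟩ (hsq hu q1)
      field_simp
      ring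
    · refine isq_mul ⟨s₁ / T, ?_⟩ (hsq hv q2)
      have e3 : io w a + 1 / T ^ 2 - io w b = s₁ * s₁ / T ^ 2 := by
        rw [← hs₁]
        field_simp
        ring
      rw [e3]
      field_simp
  · have q3 := hsq (hmul (hmul hab hac) hu) (by rwa [map_mul, map_mul, map_sub, map_sub])
    have q4 := hsq (hmul hab hv) (by rwa [map_mul, map_sub])
    obtain ⟨s₁, hs₁⟩ := small (a - c)
    obtain ⟨s₂, hs₂⟩ := small (a - b)
    have e1 : s₁ ≠ 0 := fun h => nz (a - c) (by rw [hs₁, h, mul_zero])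
    have e2 : s₂ ≠ 0 := fun h => nz (a - b) (by rw [hs₂, h, mul_zero])
    have n1 := iov hab
    have n2 := iov hac
    rw [map_sub] at hs₁ hs₂ n1 n2
    rw [map_mul, map_mul, map_sub, map_sub] at q3
    rw [map_mul, map_sub] at q4
    obtain ⟨r₁, hr₁⟩ := q3
    obtain ⟨r₂, hr₂⟩ := q4
    refine ⟨io w a + (io w a - io w b) * (io w a - io w c) * T ^ 2,
      (io w a - io w b) * (io w a - io w c) * T * s₁ * s₂, ?_, ?_, ?_, ?_⟩
    · exact mul_ne_zero (mul_ne_zero (mul_ne_zero (mul_ne_zero n1 n2) hT0) e1) e2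
    · linear_combination -((io w a - io w b) ^ 2 * (io w a - io w c) ^ 2 * T ^ 2) *
        (s₂ * s₂ * hs₁ + (1 + (io w a - io w c) * T ^ 2) * hs₂)
    · exact ⟨r₁ * T, by linear_combination T ^ 2 * hr₁⟩
    · refine ⟨r₂ * s₁, ?_⟩
      linear_combination (1 + (io w a - io w c) * T ^ 2) * hr₂ + r₂ ^ 2 * hs₁
  · have q3 := hsq (hmul (hneg hab) hu) (by rwa [map_mul, map_sub])
    have q4 := hsq (hmul (hmul (hneg hab) hbc) hv) (by rwa [map_mul, map_mul, map_sub, map_sub])
    obtain ⟨s₁, hs₁⟩ := small (b - c)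
    obtain ⟨s₂, hs₂⟩ := small (b - a)
    have e1 : s₁ ≠ 0 := fun h => nz (b - c) (by rw [hs₁, h, mul_zero])
    have e2 : s₂ ≠ 0 := fun h => nz (b - a) (by rw [hs₂, h, mul_zero])
    have n1 := iov (hneg hab)
    have n2 := iov hbc
    rw [map_sub] at hs₁ hs₂ n1 n2
    rw [map_mul, map_sub] at q3
    rw [map_mul, map_mul, map_sub, map_sub] at q4
    obtain ⟨r₁, hr₁⟩ := q3
    obtain ⟨r₂, hr₂⟩ := q4
    refine ⟨io w b + (io w b - io w a) * (io w b - io w c) * T ^ 2,
      (io w b - io w a) * (io w b - io w c) * T * s₁ * s₂, ?_, ?_, ?_, ?_⟩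
    · exact mul_ne_zero (mul_ne_zero (mul_ne_zero (mul_ne_zero n1 n2) hT0) e1) e2
    · linear_combination -((io w b - io w a) ^ 2 * (io w b - io w c) ^ 2 * T ^ 2) *
        (s₂ * s₂ * hs₁ + (1 + (io w b - io w c) * T ^ 2) * hs₂)
    · refine ⟨r₁ * s₁, ?_⟩
      linear_combination (1 + (io w b - io w c) * T ^ 2) * hr₁ + r₁ ^ 2 * hs₁
    · exact ⟨r₂ * T, by linear_combination T ^ 2 * hr₂⟩
  · have q3 := hsq (hmul (hneg hac) hu) (by rwa [map_mul, map_sub])
    have q4 := hsq (hmul (hneg hbc) hv) (by rwa [map_mul, map_sub])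
    obtain ⟨s₁, hs₁⟩ := small (c - b)
    obtain ⟨s₂, hs₂⟩ := small (c - a)
    have e1 : s₁ ≠ 0 := fun h => nz (c - b) (by rw [hs₁, h, mul_zero])
    have e2 : s₂ ≠ 0 := fun h => nz (c - a) (by rw [hs₂, h, mul_zero])
    have n1 := iov (hneg hac)
    have n2 := iov (hneg hbc)
    rw [map_sub] at hs₁ hs₂ n1 n2
    rw [map_mul, map_sub] at q3 q4
    obtain ⟨r₁, hr₁⟩ := q3
    obtain ⟨r₂, hr₂⟩ := q4
    refine ⟨io w c + (io w c - io w a) * (io w c - io w b) * T ^ 2,
      (io w c - io w a) * (io w c - io w b) * T * s₁ * s₂, ?_, ?_, ?_, ?_⟩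
    · exact mul_ne_zero (mul_ne_zero (mul_ne_zero (mul_ne_zero n1 n2) hT0) e1) e2
    · linear_combination -((io w c - io w a) ^ 2 * (io w c - io w b) ^ 2 * T ^ 2) *
        (s₂ * s₂ * hs₁ + (1 + (io w c - io w b) * T ^ 2) * hs₂)
    · refine ⟨r₁ * s₁, ?_⟩
      linear_combination (1 + (io w c - io w b) * T ^ 2) * hr₁ + r₁ ^ 2 * hs₁
    · refine ⟨r₂ * s₂, ?_⟩
      linear_combination (1 + (io w c - io w a) * T ^ 2) * hr₂ + r₂ ^ 2 * hs₂

end

end Pool.Agent.N763.QB
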